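import Mathlib
import Pool.Agent.H.MP_f2a48e_co.A
set_option autoImplicit false

namespace Pool.Agent.H.MP_79a1cb_co
open Finset Pool.Agent.H.MP_f2a48e_co

def Free (u : ℕ → ℕ) (I : Finset ℕ) : Prop :=
  ∀ p1 ∈ I, ∀ p2 ∈ I, ∀ p3 ∈ I, ∀ p4 ∈ I, ∀ p5 ∈ I, p1 < p2 → p2 < p3 → p3 < p4 → p4 < p5 →
    u p1 = u p3 → u p3 = u p5 → u p2 = u p4 → u p1 = u p2

theorem greedy (u : ℕ → ℕ) (w ρ γ : ℕ) (hw : 0 < w) (g : ℕ) : ∃ S U I : Finset ℕ,
    I ⊆ range (g * w) ∧ Free u I ∧ γ * S.card ≤ I.card ∧ U.card ≤ ρ * S.card ∧ S ⊆ range g ∧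
    (∀ p ∈ I, u p ∈ U) ∧ ∀ j < g, j ∉ S → ∀ J : Finset ℕ, (∀ p ∈ J, p / w = j ∧ u p ∉ U) →
      Free u J → (J.image u).card ≤ ρ → J.card < γ := by
  induction g with
  | zero => exact ⟨∅, ∅, ∅, by simp, by simp [Free], by simp, by simp, by simp, by simp, by simp⟩
  | succ g ih =>
    obtain ⟨S, U, I, h1, h2, h3, h4, h5, h6, h7⟩ := ih
    have mono : range (g * w) ⊆ range ((g + 1) * w) := range_subset_range.2 (by nlinarith)
    have gS : g ∉ S := fun h => (mem_range.1 (h5 h)).false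
    by_cases hc : ∀ J : Finset ℕ, (∀ p ∈ J, p / w = g ∧ u p ∉ U) → Free u J →
        (J.image u).card ≤ ρ → J.card < γ
    · refine ⟨S, U, I, h1.trans mono, h2, h3, h4, h5.trans (range_subset_range.2 (by omega)), h6,
        fun j hj hS => ?_⟩
      rcases Nat.lt_succ_iff_lt_or_eq.1 hj with h | rfl
      exacts [h7 j h hS, hc]
    push Not at hc
    obtain ⟨J, j1, j2, j3, j4⟩ := hc
    have jl : ∀ p ∈ J, g * w ≤ p := fun p hp => (j1 p hp).1 ▸ Nat.div_mul_le_self p w
    have il : ∀ p ∈ I, p < g * w := fun p hp => mem_range.1 (h1 hp)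
    have dj : Disjoint I J := disjoint_left.2 fun p a b => (il p a).not_ge (jl p b)
    refine ⟨insert g S, U ∪ J.image u, I ∪ J, union_subset (h1.trans mono) fun p hp => ?_, ?_, ?_, ?_,
      ?_, ?_, fun j hj hS J' a => h7 j ?_ (fun h => hS (mem_insert_of_mem h)) J' fun p hp =>
        ⟨(a p hp).1, fun h => (a p hp).2 (mem_union_left _ h)⟩⟩
    · have := Nat.lt_div_mul_add (a := p) hw
      rw [(j1 p hp).1] at this
      exact mem_range.2 (by linarith)
    · intro p1 a1 p2 a2 p3 a3 p4 a4 p5 a5 l1 l2 l3 l4 e1 e2 e3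
      rcases mem_union.1 a1 with b1 | b1
      · have b5 : p5 ∈ I := (mem_union.1 a5).resolve_right fun h =>
          (j1 _ h).2 (e2 ▸ e1 ▸ h6 _ b1)
        have k : ∀ p ∈ I ∪ J, p < p5 → p ∈ I := fun p hp l => (mem_union.1 hp).resolve_right fun h =>
          (l.trans (il _ b5)).not_ge (jl _ h)
        exact h2 _ b1 _ (k _ a2 (by omega)) _ (k _ a3 (by omega)) _ (k _ a4 l4) _ b5 l1 l2 l3 l4 e1 e2 e3
      · have k : ∀ p ∈ I ∪ J, p1 < p → p ∈ J := fun p hp l => (mem_union.1 hp).resolve_left fun h =>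
          (l.trans (il _ h)).not_ge (jl _ b1)
        exact j2 _ b1 _ (k _ a2 l1) _ (k _ a3 (by omega)) _ (k _ a4 (by omega)) _ (k _ a5 (by omega))
          l1 l2 l3 l4 e1 e2 e3
    · rw [card_insert_of_notMem gS, card_union_of_disjoint dj]
      linarith
    · rw [card_insert_of_notMem gS]
      exact (card_union_le _ _).trans (by linarith)
    · rw [range_add_one]
      exact insert_subset_insert _ h5
    · intro p hp
      rcases mem_union.1 hp with h | h
      exacts [mem_union_left _ (h6 p h), mem_union_right _ (mem_image_of_mem _ h)]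
    · have : j ≠ g := fun h => hS (h ▸ mem_insert_self _ _)
      omega

theorem es (r : ℕ) : ∀ s : ℕ, ∃ M, ∀ (f : ℕ → ℕ) (S : Finset ℕ), M ≤ S.card → ∃ T ⊆ S,
    T.card = r ∧ MonotoneOn f T ∨ T.card = s ∧ AntitoneOn f T := by
  induction r with
  | zero => exact fun s => ⟨0, fun f S _ => ⟨∅, by simp, Or.inl ⟨rfl, fun _ h => by simp at h⟩⟩⟩
  | succ r ih =>
    intro s
    induction s with
    | zero => exact ⟨0, fun f S _ => ⟨∅, by simp, Or.inr ⟨rfl, fun _ h => by simp at h⟩⟩⟩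
    | succ s is =>
      obtain ⟨M1, h1⟩ := ih (s + 1)
      obtain ⟨M2, h2⟩ := is
      refine ⟨M1 + M2 + 1, fun f S hS => ?_⟩
      have ne : S.Nonempty := card_pos.1 (by omega)
      have hx := min'_mem S ne
      have hl : ∀ y ∈ S, S.min' ne ≤ y := fun y hy => min'_le S y hy
      generalize S.min' ne = x at hx hl
      have c1 := card_filter_add_card_filter_not (s := S.erase x) fun y => f x ≤ f y
      rw [card_erase_of_mem hx] at c1
      by_cases hc : M1 ≤ ((S.erase x).filter fun y => f x ≤ f y).card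
      · obtain ⟨T, t1, t2⟩ := h1 f _ hc
        have t3 : T ⊆ S := t1.trans ((filter_subset _ _).trans (erase_subset _ _))
        rcases t2 with ⟨t4, t5⟩ | t2
        · refine ⟨insert x T, insert_subset hx t3, Or.inl ⟨?_, ?_⟩⟩
          · rw [card_insert_of_notMem fun h => by simpa using t1 h, t4]
          · intro a ha b hb l
            rcases mem_insert.1 ha with rfl | ha' <;> rcases mem_insert.1 hb with rfl | hb'
            · rfl
            · exact (mem_filter.1 (t1 hb')).2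
            · exact (congrArg f (le_antisymm l (hl _ (t3 ha')))).le
            · exact t5 ha' hb' l
        · exact ⟨T, t3, Or.inr t2⟩
      · obtain ⟨T, t1, t2⟩ := h2 f ((S.erase x).filter fun y => ¬ f x ≤ f y) (by omega)
        have t3 : T ⊆ S := t1.trans ((filter_subset _ _).trans (erase_subset _ _))
        rcases t2 with t2 | ⟨t4, t5⟩
        · exact ⟨T, t3, Or.inl t2⟩
        · refine ⟨insert x T, insert_subset hx t3, Or.inr ⟨?_, ?_⟩⟩
          · rw [card_insert_of_notMem fun h => by simpa using t1 h, t4]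
          · intro a ha b hb l
            rcases mem_insert.1 ha with rfl | ha' <;> rcases mem_insert.1 hb with rfl | hb'
            · rfl
            · exact (not_le.1 (mem_filter.1 (t1 hb')).2).le
            · exact (congrArg f (le_antisymm l (hl _ (t3 ha')))).ge
            · exact t5 ha' hb' l

theorem esi (s : ℕ) : ∀ r : ℕ, ∃ M, ∀ (f : ℕ → ℕ → ℕ) (S : Finset ℕ), M ≤ S.card → ∃ T ⊆ S,
    T.card = r ∧ ∀ i < s, MonotoneOn (f i) T ∨ AntitoneOn (f i) T := by
  induction s with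
  | zero =>
    refine fun r => ⟨r, fun f S h => ?_⟩
    obtain ⟨T, t1, t2⟩ := exists_subset_card_eq h
    exact ⟨T, t1, t2, by simp⟩
  | succ s ih =>
    intro r
    obtain ⟨M, h1⟩ := es r r
    obtain ⟨M', h2⟩ := ih M
    refine ⟨M', fun f S h => ?_⟩
    obtain ⟨T, t1, t2, t3⟩ := h2 f S h
    obtain ⟨T', u1, u2⟩ := h1 (f s) T t2.ge
    refine ⟨T', u1.trans t1, u2.elim (·.1) (·.1), fun i hi => ?_⟩
    rcases Nat.lt_succ_iff_lt_or_eq.1 hi with h | rfl
    · exact (t3 i h).imp (·.mono u1) (·.mono u1)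
    · exact u2.imp (·.2) (·.2)

theorem gad {R : ℕ} (A : Finset (Fin R × Fin R)) (hA : Av A) (u : ℕ → ℕ) (e : Fin R → ℕ)
    (he : Function.Injective e) (q : Fin R → Fin R → ℕ) (h1 : ∀ x c, u (q x c) = e x)
    (h2 : ∀ x y c d, c < d → q x c < q y d) (h3 : ∀ x y c, x < y → q x c ≤ q y c) :
    ∃ J : Finset ℕ, (∀ p ∈ J, ∃ x c, q x c = p) ∧ Free u J ∧ (J.image u).card ≤ R ∧
      J.card = A.card := by
  have k1 : ∀ x y c d, q x c < q y d → ¬ d < c := fun x y c d h l => h.not_gt (h2 _ _ _ _ l)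
  have k2 : ∀ x y c d, q x c < q y d → y < x → c < d := fun x y c d h l =>
    (not_lt.1 (k1 _ _ _ _ h)).lt_of_ne fun e => h.not_ge (e ▸ h3 _ _ _ l)
  refine ⟨A.image fun z => q z.1 z.2, fun p hp => ?_, ?_, ?_, card_image_of_injOn ?_⟩
  · obtain ⟨z, -, h⟩ := mem_image.1 hp
    exact ⟨_, _, h⟩
  · intro p1 a1 p2 a2 p3 a3 p4 a4 p5 a5 l1 l2 l3 l4 e1 e2 e3
    obtain ⟨⟨x1, c1⟩, b1, rfl⟩ := mem_image.1 a1
    obtain ⟨⟨x2, c2⟩, b2, rfl⟩ := mem_image.1 a2
    obtain ⟨⟨x3, c3⟩, b3, rfl⟩ := mem_image.1 a3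
    obtain ⟨⟨x4, c4⟩, b4, rfl⟩ := mem_image.1 a4
    obtain ⟨⟨x5, c5⟩, b5, rfl⟩ := mem_image.1 a5
    simp only [h1, he.eq_iff] at e1 e2 e3 ⊢
    subst e1 e2 e3
    rcases lt_trichotomy x1 x2 with h | h | h
    · exact (hA _ _ _ _ _ _ h (k1 _ _ _ _ l1) (k2 _ _ _ _ l2 h) (k1 _ _ _ _ l3) b1 b2 b3 b4).elim
    · exact h
    · exact (hA _ _ _ _ _ _ h (k1 _ _ _ _ l2) (k2 _ _ _ _ l3 h) (k1 _ _ _ _ l4) b2 b3 b4 b5).elim
  · refine (card_le_card (t := univ.image e) fun a ha => ?_).trans (card_image_le.trans (by simp))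
    obtain ⟨p, hp, rfl⟩ := mem_image.1 ha
    obtain ⟨z, -, rfl⟩ := mem_image.1 hp
    exact mem_image.2 ⟨z.1, mem_univ _, (h1 _ _).symm⟩
  · rintro ⟨x, c⟩ - ⟨y, d⟩ - h
    have e1 : x = y := he (by rw [← h1 x c, ← h1 y d]; exact congrArg u h)
    exact Prod.ext e1 (le_antisymm (not_lt.1 fun l => (h2 _ _ _ _ l).ne' h)
      (not_lt.1 fun l => (h2 _ _ _ _ l).ne h))

open Classical in
theorem heavy {R : ℕ} (A : Finset (Fin R × Fin R)) (hA : Av A) (s : ℕ) : ∃ M, ∀ (u : ℕ → ℕ)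
    (n b : ℕ) (H : Finset ℕ), M ≤ H.card → (∀ a ∈ H, 2 * R ≤
      ((range s).filter fun i => ∃ p, p / n = b + i ∧ u p = a).card) →
    ∃ J : Finset ℕ, (∀ p ∈ J, (∃ i < s, p / n = b + i) ∧ u p ∈ H) ∧ Free u J ∧
      (J.image u).card ≤ R ∧ J.card = A.card := by
  obtain ⟨M, hM⟩ := esi s R
  refine ⟨2 ^ s * M, fun u n b H h1 h2 => ?_⟩
  obtain ⟨W, -, w2⟩ := exists_le_card_fiber_of_mul_le_card_of_maps_to (t := (range s).powerset)
    (f := fun a => (range s).filter fun i => ∃ p, p / n = b + i ∧ u p = a) (s := H) (n := M)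
    (fun a _ => mem_powerset.2 (filter_subset _ _)) ⟨∅, by simp⟩ (by simpa using h1)
  have : ∀ i a, ∃ p, (∃ p, p / n = b + i ∧ u p = a) → p / n = b + i ∧ u p = a := fun i a => by
    by_cases h : ∃ p, p / n = b + i ∧ u p = a
    exacts [h.imp fun _ h _ => h, ⟨0, fun h' => absurd h' h⟩]
  choose f hf using this
  obtain ⟨T, t1, t2, t3⟩ := hM f _ w2
  have k : ∀ a ∈ T, a ∈ H ∧ 2 * R ≤ W.card ∧ ∀ i ∈ W, i < s ∧ f i a / n = b + i ∧ u (f i a) = a :=
    fun a ha => by
      obtain ⟨a1, rfl⟩ := mem_filter.1 (t1 ha)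
      exact ⟨a1, h2 a a1, fun i hi => ⟨mem_range.1 (mem_filter.1 hi).1, hf _ _ (mem_filter.1 hi).2⟩⟩
  have fin : ∀ (e : Fin R → ℕ) (V : Finset ℕ), Function.Injective e → (∀ x, e x ∈ T) → V ⊆ W →
      R ≤ V.card → (∀ i ∈ V, ∀ x y, x < y → f i (e x) ≤ f i (e y)) →
      ∃ J : Finset ℕ, (∀ p ∈ J, (∃ i < s, p / n = b + i) ∧ u p ∈ H) ∧ Free u J ∧
      (J.image u).card ≤ R ∧ J.card = A.card := fun e V e1 e2 v1 v2 v3 => by
    have d1 := fun c => V.orderEmbOfCardLe_mem v2 c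
    have d2 := fun x c => (k _ (e2 x)).2.2 _ (v1 (d1 c))
    obtain ⟨J, j1, j2⟩ := gad A hA u e e1 (fun x c => f (V.orderEmbOfCardLe v2 c) (e x))
      (fun x c => (d2 x c).2.2) (fun x y c d l => Nat.lt_of_div_lt_div (c := n) (by
        rw [(d2 x c).2.1, (d2 y d).2.1]
        exact Nat.add_lt_add_left ((V.orderEmbOfCardLe v2).strictMono l) _))
      fun x y c l => v3 _ (d1 c) _ _ l
    refine ⟨J, fun p hp => ?_, j2⟩
    obtain ⟨x, c, rfl⟩ := j1 p hp
    exact ⟨⟨_, (d2 x c).1, (d2 x c).2.1⟩, by rw [(d2 x c).2.2]; exact (k _ (e2 x)).1⟩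
  rcases Nat.eq_zero_or_pos R with rfl | hR
  · exact fin (fun x => x.elim0) ∅ (fun x => x.elim0) (fun x => x.elim0) (by simp) (by simp) (by simp)
  obtain ⟨a, ha⟩ : T.Nonempty := card_pos.1 (by omega)
  have c1 := card_filter_add_card_filter_not (s := W) fun i => MonotoneOn (f i) T
  have c2 := (k a ha).2.1
  have m := fun x => T.orderEmbOfFin_mem t2 x
  by_cases hc : R ≤ (W.filter fun i => MonotoneOn (f i) T).card
  · exact fin (T.orderEmbOfFin t2) _ (T.orderEmbOfFin t2).injective m (filter_subset _ _) hc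
      fun i hi x y l => (mem_filter.1 hi).2 (m x) (m y) ((T.orderEmbOfFin t2).monotone l.le)
  · exact fin (fun x => T.orderEmbOfFin t2 x.rev) (W.filter fun i => ¬ MonotoneOn (f i) T)
      ((T.orderEmbOfFin t2).injective.comp Fin.rev_injective) (fun x => m _) (filter_subset _ _)
      (by omega) fun i hi x y l => (t3 i ((k a ha).2.2 i (mem_filter.1 hi).1).1).resolve_left
        (mem_filter.1 hi).2 (m _) (m _) ((T.orderEmbOfFin t2).monotone (Fin.rev_le_rev.2 l.le))

theorem split3 {X : Type} (s : Finset X) (p q : X → Prop) [DecidablePred p] [DecidablePred q] :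
    s.card ≤ (s.filter p).card + (s.filter q).card + (s.filter fun x => ¬ p x ∧ ¬ q x).card := by
  classical
  refine le_trans (card_le_card fun x hx => ?_) ((card_union_le _ _).trans
    (Nat.add_le_add_right (card_union_le _ _) _))
  simp only [mem_union, mem_filter, hx, true_and]
  tauto

theorem ico (n j p : ℕ) (hn : 0 < n) (h : p / n = j) : p ∈ Ico (j * n) (j * n + n) :=
  mem_Ico.2 ⟨h ▸ Nat.div_mul_le_self p n, h ▸ Nat.lt_div_mul_add hn⟩

theorem run1 (u : ℕ → ℕ) (K n : ℕ) (hn : 0 < n)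
    (h : ∀ I ⊆ range (n * n), Free u I → I.card < K * n) :
    n * n ≤ 2 * (2 * K * (K + 1)) * ((range (n * n)).image fun p => (u p, p / n)).card := by
  obtain ⟨S, U, I, h1, h2, h3, h4, -, -, h7⟩ := greedy u n 1 (2 * K * (K + 1)) hn n
  have c0 := split3 (range (n * n)) (fun p => p / n ∈ S) fun p => u p ∈ U
  have c1 : ((range (n * n)).filter fun p => p / n ∈ S).card ≤ n * S.card :=
    card_le_mul_card_image_of_maps_to (f := fun p => p / n) (fun p hp => (mem_filter.1 hp).2) n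
      fun j _ => (card_le_card fun p hp => ico n j p hn (mem_filter.1 hp).2).trans (by simp)
  have c2 : ((range (n * n)).filter fun p => u p ∈ U).card ≤ K * n * U.card :=
    card_le_mul_card_image_of_maps_to (f := u) (fun p hp => (mem_filter.1 hp).2) _
      fun a _ => (h _ ((filter_subset _ _).trans (filter_subset _ _)) fun p1 a1 p2 a2 _ _ _ _ _ _ _ _
        _ _ _ _ _ => (mem_filter.1 a1).2.trans (mem_filter.1 a2).2.symm).le
  have c3 : ((range (n * n)).filter fun p => ¬ p / n ∈ S ∧ ¬ u p ∈ U).card ≤ 2 * K * (K + 1) *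
      ((range (n * n)).image fun p => (u p, p / n)).card := by
    refine card_le_mul_card_image_of_maps_to (f := fun p => (u p, p / n))
      (fun p hp => mem_image_of_mem _ (mem_filter.1 hp).1) _ fun z _ => ?_
    rcases (((range (n * n)).filter fun p => ¬ p / n ∈ S ∧ ¬ u p ∈ U).filter
      fun p => (u p, p / n) = z).eq_empty_or_nonempty with e | ⟨p, hp⟩
    · simp [e]
    obtain ⟨a1, rfl⟩ := mem_filter.1 hp
    obtain ⟨a2, a3, -⟩ := mem_filter.1 a1
    refine (h7 _ (Nat.div_lt_of_lt_mul (mem_range.1 a2)) a3 _ (fun q hq => ⟨(Prod.mk.inj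
      (mem_filter.1 hq).2).2, (mem_filter.1 (mem_filter.1 hq).1).2.2⟩) (fun p1 a1 p2 a2 _ _ _ _ _ _ _ _
        _ _ _ _ _ => (Prod.mk.inj ((mem_filter.1 a1).2.trans (mem_filter.1 a2).2.symm)).1)
      ((card_le_card (t := {u p}) fun a ha => ?_).trans (by simp))).le
    obtain ⟨q, hq, rfl⟩ := mem_image.1 ha
    exact mem_singleton.2 (Prod.mk.inj (mem_filter.1 hq).2).1
  have c4 := h I h1 h2
  rw [card_range] at c0
  generalize ((range (n * n)).image fun p => (u p, p / n)).card = P at *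
  have hK : 0 < K := Nat.pos_of_ne_zero fun e => by simp [e] at c4
  have c5 : 2 * (K + 1) * S.card ≤ n := Nat.le_of_mul_le_mul_left (by nlinarith) hK
  have c6 := Nat.mul_le_mul_left (K * n) h4
  have c7 := Nat.mul_le_mul_left n c5
  nlinarith

open Classical in
theorem core (K : ℕ) : ∃ s G, 0 < s ∧ ∀ g ≥ G, ∀ u : ℕ → ℕ,
    ∃ I ⊆ range (g * s * (g * s)), Free u I ∧ K * (g * s) ≤ I.card := by
  rcases Nat.eq_zero_or_pos K with rfl | hK
  · exact ⟨1, 0, one_pos, fun _ _ _ => ⟨∅, by simp, by simp [Free], by simp⟩⟩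
  obtain ⟨C, hC⟩ : ∃ C, C = 2 * K * (K + 1) := ⟨_, rfl⟩
  have C0 : 0 < C := by rw [hC]; positivity
  obtain ⟨N, hN⟩ := superlin (128 * C * C * K * K * K)
  obtain ⟨A, hA, a2⟩ := hN (N + 1) (by omega)
  have R0 : 0 < N + 1 := by omega
  generalize N + 1 = R at A hA a2 R0
  obtain ⟨s, hs⟩ : ∃ s, s = 16 * C * K * R := ⟨_, rfl⟩
  have s0 : 0 < s := by rw [hs]; positivity
  obtain ⟨M, hM⟩ := heavy A hA s
  refine ⟨s, 8 * C * M + 1, s0, fun g hg u => ?_⟩
  obtain ⟨n, hn⟩ : ∃ n, n = g * s := ⟨_, rfl⟩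
  have n0 : 0 < n := by rw [hn]; exact Nat.mul_pos (by omega) s0
  rw [← hn]
  by_contra h
  push Not at h
  have r1 := run1 u K n n0 h
  rw [← hC] at r1
  have hL : ((range (n * n)).image u).card ≤ K * n := by
    obtain ⟨B, b1, b2, b3⟩ := exists_subset_injOn_image_eq_of_surjOn (f := u) (range (n * n) : Set ℕ)
      ((range (n * n)).image u) (by rw [coe_image]; exact Set.surjOn_image _ _)
    rw [← b3, card_image_of_injOn b2]
    exact (h B b1 fun p1 a1 p2 _ p3 a3 _ _ _ _ l1 l2 _ _ e _ _ =>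
      absurd (b2 a1 a3 e) (l1.trans l2).ne).le
  obtain ⟨S, U, I, h1, h2, h3, h4, -, -, h7⟩ := greedy u (n * s) R A.card (Nat.mul_pos n0 s0) g
  have c4 := h I (by rwa [show n * n = g * (n * s) by rw [hn]; ring]) h2
  have hP : ∀ z ∈ (range (n * n)).image fun p => (u p, p / n),
      z.1 ∈ (range (n * n)).image u ∧ z.2 < n ∧ ∃ p, p / n = z.2 ∧ u p = z.1 := fun z hz => by
    obtain ⟨p, hp, rfl⟩ := mem_image.1 hz
    exact ⟨mem_image_of_mem _ hp, Nat.div_lt_of_lt_mul (mem_range.1 hp), p, rfl, rfl⟩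
  generalize ((range (n * n)).image fun p => (u p, p / n)) = P at hP r1
  generalize (range (n * n)).image u = L at hP hL
  have c0 := split3 P (fun z => z.2 / s ∈ S) fun z => z.1 ∈ U
  have c1 : (P.filter fun z => z.2 / s ∈ S).card ≤ K * n * s * S.card :=
    card_le_mul_card_image_of_maps_to (f := fun z : ℕ × ℕ => z.2 / s)
      (fun p hp => (mem_filter.1 hp).2) _ fun j _ =>
      (card_le_card (t := L ×ˢ Ico (j * s) (j * s + s)) fun z hz => mem_product.2
        ⟨(hP z (mem_filter.1 (mem_filter.1 hz).1).1).1, ico s j _ s0 (mem_filter.1 hz).2⟩).trans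
        (by simpa using Nat.mul_le_mul_right s hL)
  have c2 : (P.filter fun z => z.1 ∈ U).card ≤ n * U.card :=
    card_le_mul_card_image_of_maps_to (f := Prod.fst) (fun p hp => (mem_filter.1 hp).2) _ fun a _ =>
      (card_le_card (t := {a} ×ˢ range n) fun z hz => mem_product.2 ⟨mem_singleton.2
        (mem_filter.1 hz).2, mem_range.2 (hP z (mem_filter.1 (mem_filter.1 hz).1).1).2.1⟩).trans
        (by simp)
  have c3 : (P.filter fun z => ¬ z.2 / s ∈ S ∧ ¬ z.1 ∈ U).card ≤ (s * M + 2 * R * (K * n)) * g := by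
    refine (card_le_mul_card_image_of_maps_to (f := fun z : ℕ × ℕ => z.2 / s) (t := range g)
      (fun z hz => mem_range.2 (Nat.div_lt_of_lt_mul (by
        rw [mul_comm, ← hn]
        exact (hP z (mem_filter.1 hz).1).2.1))) _ fun j hj => ?_).trans (by rw [card_range])
    by_cases jS : j ∈ S
    · rw [card_eq_zero.2 (eq_empty_of_forall_notMem fun z hz =>
        (mem_filter.1 (mem_filter.1 hz).1).2.1 ((mem_filter.1 hz).2 ▸ jS))]
      exact Nat.zero_le _
    generalize hD : (P.filter fun z => ¬ z.2 / s ∈ S ∧ ¬ z.1 ∈ U).filter (fun z => z.2 / s = j) = D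
    have d1 : ∀ z ∈ D, z ∈ P ∧ z.1 ∉ U ∧ j * s + z.2 % s = z.2 := fun z hz => by
      rw [← hD] at hz
      obtain ⟨b1, rfl⟩ := mem_filter.1 hz
      exact ⟨(mem_filter.1 b1).1, (mem_filter.1 b1).2.2, Nat.div_add_mod' _ _⟩
    have d2 : ∀ a, ∀ D' ⊆ D, (D'.filter fun z => z.1 = a).card ≤
        ((range s).filter fun i => ∃ p, p / n = j * s + i ∧ u p = a).card := fun a D' hD' => by
      refine card_le_card_of_injOn (fun z => z.2 % s) (fun z hz => ?_) fun z hz y hy e => ?_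
      · obtain ⟨b1, rfl⟩ := mem_filter.1 hz
        refine mem_filter.2 ⟨mem_range.2 (Nat.mod_lt _ s0), ?_⟩
        rw [(d1 z (hD' b1)).2.2]
        exact (hP z (d1 z (hD' b1)).1).2.2
      · obtain ⟨b1, b2⟩ := mem_filter.1 hz
        obtain ⟨b3, b4⟩ := mem_filter.1 hy
        refine Prod.ext (b2.trans b4.symm) ?_
        rw [← (d1 z (hD' b1)).2.2, ← (d1 y (hD' b3)).2.2]
        exact congrArg _ e
    let H := L.filter fun a => a ∉ U ∧
      2 * R ≤ ((range s).filter fun i => ∃ p, p / n = j * s + i ∧ u p = a).card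
    have d3 : H.card ≤ M := not_lt.1 fun l => by
      obtain ⟨J, j1, j2, j3, j4⟩ := hM u n (j * s) H l.le fun a ha => (mem_filter.1 ha).2.2
      refine (h7 j (mem_range.1 hj) jS J (fun p hp => ⟨?_, (mem_filter.1 (j1 p hp).2).2.1⟩) j2
        j3).ne j4
      obtain ⟨i, i1, i2⟩ := (j1 p hp).1
      rw [← Nat.div_div_eq_div_mul, i2, mul_comm, Nat.mul_add_div s0, Nat.div_eq_of_lt i1, add_zero]
    rw [← card_filter_add_card_filter_not (s := D) fun z => z.1 ∈ H]
    refine Nat.add_le_add ((card_le_mul_card_image_of_maps_to (f := Prod.fst) (t := H)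
      (fun z hz => (mem_filter.1 hz).2) s fun a _ => (d2 a _ (filter_subset _ _)).trans
        ((card_filter_le _ _).trans (card_range s).le)).trans (Nat.mul_le_mul_left _ d3))
      ((card_le_mul_card_image_of_maps_to (f := Prod.fst) (t := L.filter fun a => a ∉ U ∧ a ∉ H)
        (fun z hz => ?_) (2 * R) fun a ha => (d2 a _ (filter_subset _ _)).trans ?_).trans
        (Nat.mul_le_mul_left _ ((card_filter_le _ _).trans hL)))
    · obtain ⟨b1, b2⟩ := mem_filter.1 hz
      exact mem_filter.2 ⟨(hP z (d1 z b1).1).1, (d1 z b1).2.1, b2⟩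
    · obtain ⟨b1, b2, b3⟩ := mem_filter.1 ha
      exact (not_le.1 fun l => b3 (mem_filter.2 ⟨b1, b2, l⟩)).le
  have e1 : 128 * C * C * K * K * R * S.card ≤ n := Nat.le_of_mul_le_mul_left
    (by nlinarith [Nat.mul_le_mul_right S.card a2]) hK
  have e2 : P.card ≤ n * (K * s * S.card + R * S.card + M + 2 * R * K * g) := by
    have := Nat.mul_le_mul_left n h4
    have : (s * M + 2 * R * (K * n)) * g = n * (M + 2 * R * K * g) := by rw [hn]; ring
    nlinarith
  have e3 : n ≤ 2 * C * (K * s * S.card + R * S.card + M + 2 * R * K * g) :=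
    Nat.le_of_mul_le_mul_left (by nlinarith [Nat.mul_le_mul_left (2 * C) e2]) n0
  have e4 : 8 * C * M + 1 ≤ n := hg.trans (hn ▸ Nat.le_mul_of_pos_right _ s0)
  have e5 : 16 * C * K * R * g = n := by rw [hn, hs]; ring
  have e6 : 1 * (8 * C * R * S.card) ≤ 16 * C * K * K * (8 * C * R * S.card) :=
    Nat.mul_le_mul_right _ (Nat.pos_of_ne_zero (by positivity))
  rw [hs] at e3
  nlinarith

end Pool.Agent.H.MP_79a1cb_co
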